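import Pool.Agent.Q237.CR.PrA

/-! # Project CR: JOB PR, the estimates -/

set_option autoImplicit false

namespace Pool.Agent.Q237.CR

open Finset Filter Topology
open Pool.Agent.H410R2 (psiLog)

/-- growth (b) -/
theorem grow_b {l : ℝ} (hl : 2 ≤ l) : 16 * Real.exp l ≤ Real.exp (l ^ 7 / 20) := by
  have h16 : (16 : ℝ) ≤ Real.exp 3 := by
    have h1 := Real.exp_one_gt_d9
    have h2 : Real.exp 3 = Real.exp 1 ^ 3 := by rw [← Real.exp_nat_mul]; norm_num
    rw [h2]
    have h3 : (2.7 : ℝ) ^ 3 ≤ Real.exp 1 ^ 3 := pow_le_pow_left₀ (by norm_num) (by linarith) 3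
    linarith [show (2.7 : ℝ) ^ 3 = 19.683 by norm_num]
  have h2 : (64 : ℝ) ≤ l ^ 6 := by
    have := pow_le_pow_left₀ (by norm_num) hl 6
    linarith [show (2 : ℝ) ^ 6 = 64 by norm_num]
  have h3 : l + 3 ≤ l ^ 7 / 20 := by
    have : l ^ 7 = l ^ 6 * l := by ring
    nlinarith
  calc 16 * Real.exp l ≤ Real.exp 3 * Real.exp l := mul_le_mul_of_nonneg_right h16 (Real.exp_pos _).le
    _ = Real.exp (l + 3) := by rw [← Real.exp_add, add_comm]
    _ ≤ _ := Real.exp_le_exp.2 h3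

/-- growth (c) -/
theorem grow_c {l : ℝ} (hl : 2000000 ≤ l) : 8 * Real.exp l * Real.exp (l ^ 7 / 5) ≤ Real.exp (Real.exp l / 20) := by
  have h8 : (8 : ℝ) ≤ Real.exp 3 := by
    have h1 := Real.exp_one_gt_d9
    have h2 : Real.exp 3 = Real.exp 1 ^ 3 := by rw [← Real.exp_nat_mul]; norm_num
    rw [h2]
    have h3 : (2.7 : ℝ) ^ 3 ≤ Real.exp 1 ^ 3 := pow_le_pow_left₀ (by norm_num) (by linarith) 3
    linarith [show (2.7 : ℝ) ^ 3 = 19.683 by norm_num]
  have h1 := Real.pow_div_factorial_le_exp (x := l) (by linarith) 8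
  have h2 : (Nat.factorial 8 : ℝ) = 40320 := by norm_num [Nat.factorial]
  rw [h2] at h1
  have h3 : 1 ≤ l ^ 6 := one_le_pow₀ (by linarith)
  have h4 : 3 + l + l ^ 7 / 5 ≤ Real.exp l / 20 := by
    have e1 : l ^ 8 = l * l ^ 7 := by ring
    have e2 : l ^ 7 = l ^ 6 * l := by ring
    have h5 : 2 * l ^ 7 ≤ l ^ 8 / 40320 / 20 := by
      rw [e1]
      have : 0 < l ^ 7 := by positivity
      rw [div_div, le_div_iff₀ (by norm_num)]
      nlinarith
    have h6 : l ≤ l ^ 7 := by rw [e2]; nlinarith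
    linarith
  calc 8 * Real.exp l * Real.exp (l ^ 7 / 5) ≤ Real.exp 3 * Real.exp l * Real.exp (l ^ 7 / 5) := by gcongr
    _ = Real.exp (3 + l + l ^ 7 / 5) := by rw [← Real.exp_add, ← Real.exp_add]
    _ ≤ _ := Real.exp_le_exp.2 h4

theorem pr_core : ∃ X0 : ℝ, ∀ X : ℝ, X0 ≤ X → ∀ (f : ℕ) (χ : DirichletCharacter ℂ f),
    (∀ x : ℝ, X ^ (1 / 20 : ℝ) ≤ x → x ≤ 3 * X → ‖psiLog x f χ‖ ≤
      x * Real.exp (-(Real.log (Real.log X)) ^ 7 / 2)) →
    ∀ u : ℕ, X ^ (1 / 10 : ℝ) ≤ (u : ℝ) → (u : ℝ) ≤ X →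
      ‖∑ p ∈ (Icc 1 u).filter Nat.Prime, χ (p : ZMod f)‖ ≤ u * Real.exp (-(Real.log (Real.log X)) ^ 7 / 8) := by
  refine ⟨Real.exp (Real.exp 2000000), fun X hX f χ hyp u hu1 hu2 => ?_⟩
  have hX0 : 0 < X := (Real.exp_pos _).trans_le hX
  have hL1 : Real.exp 2000000 ≤ Real.log X := (Real.le_log_iff_exp_le hX0).2 hX
  have hLpos : 0 < Real.log X := (Real.exp_pos _).trans_le hL1
  set l := Real.log (Real.log X) with hl
  have hl1 : 2000000 ≤ l := (Real.le_log_iff_exp_le hLpos).2 hL1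
  have hexpl : Real.exp l = Real.log X := Real.exp_log hLpos
  have hb := grow_b (l := l) (by linarith)
  have hc := grow_c hl1
  have hX20 : X ^ (1 / 20 : ℝ) = Real.exp (Real.exp l / 20) := by
    rw [hexpl, Real.rpow_def_of_pos hX0]; congr 1; ring
  set Y := X ^ (1 / 20 : ℝ) with hY
  have hL0 : 1 ≤ Real.exp l := Real.one_le_exp (by linarith)
  have hexp5 : 1 ≤ Real.exp (l ^ 7 / 5) := Real.one_le_exp (by positivity)
  have hY8 : 8 ≤ Y := by
    rw [hX20]
    refine le_trans ?_ hc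
    have : 1 ≤ Real.exp l * Real.exp (l ^ 7 / 5) := one_le_mul_of_one_le_of_one_le hL0 hexp5
    linarith [mul_assoc 8 (Real.exp l) (Real.exp (l ^ 7 / 5))]
  have hY2 : X ^ (1 / 10 : ℝ) = Y ^ 2 := by
    rw [hY, ← Real.rpow_natCast, ← Real.rpow_mul hX0.le]; norm_num
  have hYX : Y ^ 2 ≤ X := by
    rw [← hY2]
    exact hu1.trans hu2
  have hX1 : 1 ≤ X := by nlinarith
  -- logs
  have hlog3X : Real.log (3 * X) ≤ 2 * Real.exp l := by
    rw [Real.log_mul (by norm_num) hX0.ne', ← hexpl]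
    have h3 : Real.log 3 ≤ 2 := by
      have := Real.log_le_sub_one_of_pos (show (0 : ℝ) < 3 by norm_num)
      linarith
    have h4 : 2 ≤ Real.exp l := by
      have := Real.add_one_le_exp l
      linarith
    linarith
  -- the bound for `ψ`
  have hη0 : 0 < Real.exp (-l ^ 7 / 4) := Real.exp_pos _
  have hη1 : Real.exp (-l ^ 7 / 4) ≤ 1 := by
    rw [Real.exp_le_one_iff]
    have : 0 ≤ l ^ 7 := by positivity
    linarith
  have hpsi : ∀ v : ℕ, Y ≤ v → (v : ℝ) ≤ X → ‖∑ n ∈ Ioc 0 v, aT χ n‖ ≤ v * Real.exp (-l ^ 7 / 5) / 2 := by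
    intro v hv1 hv2
    have hv0 : (0 : ℝ) < v := by linarith
    have hvn : 1 ≤ v := by
      have : 0 < v := by exact_mod_cast hv0
      exact this
    have h1 := stepA χ v hvn _ hη0 hη1
    have he3 : Real.exp (Real.exp (-l ^ 7 / 4)) ≤ 3 := by
      have := Real.exp_le_exp.2 hη1
      have := Real.exp_one_lt_d9
      linarith
    have he1 : 1 ≤ Real.exp (Real.exp (-l ^ 7 / 4)) := Real.one_le_exp hη0.le
    have hw1 : (v : ℝ) ≤ v * Real.exp (Real.exp (-l ^ 7 / 4)) := le_mul_of_one_le_right hv0.le he1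
    have hw2 : v * Real.exp (Real.exp (-l ^ 7 / 4)) ≤ 3 * v := by
      rw [mul_comm]; exact mul_le_mul_of_nonneg_right he3 hv0.le
    have h2 := hyp (v * Real.exp (Real.exp (-l ^ 7 / 4))) (hv1.trans hw1) (by linarith)
    have h3 := hyp v hv1 (by linarith)
    have h4 : Real.log (3 * v) ≤ 2 * Real.exp l :=
      (Real.log_le_log (by positivity) (by linarith)).trans hlog3X
    have e2 : Real.exp (-l ^ 7 / 2) = Real.exp (-l ^ 7 / 4) * Real.exp (-l ^ 7 / 4) := by
      rw [← Real.exp_add]; congr 1; ring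
    set η := Real.exp (-l ^ 7 / 4) with hη
    rw [e2] at h2 h3
    have h5 : η * ‖∑ n ∈ Ioc 0 v, aT χ n‖ ≤ η * (η * v * (8 * Real.exp l)) := by
      refine h1.trans ?_
      have h6 : v * Real.exp η * (η * η) ≤ 3 * v * (η * η) :=
        mul_le_mul_of_nonneg_right hw2 (by positivity)
      have h7 : η * (2 * η * v * Real.log (3 * v)) ≤ η * (2 * η * v * (2 * Real.exp l)) := by
        gcongr
      have h8 : 4 * (v * (η * η)) ≤ 4 * (v * (η * η)) * Real.exp l :=
        le_mul_of_one_le_right (by positivity) hL0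
      linarith [show η * (η * v * (8 * Real.exp l)) = 4 * (v * (η * η)) * Real.exp l +
        η * (2 * η * v * (2 * Real.exp l)) by ring]
    have h6 := le_of_mul_le_mul_left h5 hη0
    refine h6.trans ?_
    have e3 : Real.exp (-l ^ 7 / 5) = η * Real.exp (l ^ 7 / 20) := by
      rw [hη, ← Real.exp_add]; congr 1; ring
    rw [e3]
    have h7 : η * v * (16 * Real.exp l) ≤ η * v * Real.exp (l ^ 7 / 20) :=
      mul_le_mul_of_nonneg_left hb (by positivity)
    linarith [show v * (η * Real.exp (l ^ 7 / 20)) = η * v * Real.exp (l ^ 7 / 20) by ring]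
  -- the cut
  set v₀ := ⌈Y⌉₊ with hv₀
  have hv1 : Y ≤ v₀ := Nat.le_ceil _
  have hv2 : (v₀ : ℝ) ≤ Y + 1 := (Nat.ceil_lt_add_one (by linarith)).le
  have hv3 : (v₀ : ℝ) ≤ u := by
    rw [hY2] at hu1
    nlinarith
  have hv3' : v₀ ≤ u := by exact_mod_cast hv3
  have hu0 : (0 : ℝ) < u := by linarith
  have hv8 : (8 : ℝ) ≤ v₀ := hY8.trans hv1
  have hv8' : 8 ≤ v₀ := by exact_mod_cast hv8
  -- Abel summation
  have hE0 : 0 < Real.exp (-l ^ 7 / 5) := Real.exp_pos _
  have habel := abelS (aT χ) (fun n => 1 / Real.log n) v₀ u (u * Real.exp (-l ^ 7 / 5)) hv3'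
    (fun n => by
      have := Real.log_natCast_nonneg n
      positivity)
    (fun n hn => by
      have h1 : 0 < Real.log n := Real.log_pos (by exact_mod_cast (by omega : 1 < n))
      apply one_div_le_one_div_of_le h1
      apply Real.log_le_log (by exact_mod_cast (by omega : 0 < n))
      push_cast; linarith)
    (fun m hm1 hm2 => by
      have e1 : ∑ n ∈ Ioc v₀ m, aT χ n = ∑ n ∈ Ioc 0 m, aT χ n - ∑ n ∈ Ioc 0 v₀, aT χ n := by
        rw [← sum_Ioc_consecutive _ (Nat.zero_le _) hm1]; ring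
      rw [e1]
      refine (norm_sub_le _ _).trans ?_
      have hm1' : (v₀ : ℝ) ≤ m := by exact_mod_cast hm1
      have hm2' : (m : ℝ) ≤ u := by exact_mod_cast hm2
      have g1 := hpsi m (hv1.trans hm1') (hm2'.trans hu2)
      have g2 := hpsi v₀ hv1 (hv3.trans hu2)
      have g3 : (m : ℝ) * Real.exp (-l ^ 7 / 5) ≤ u * Real.exp (-l ^ 7 / 5) :=
        mul_le_mul_of_nonneg_right hm2' hE0.le
      have g4 : (v₀ : ℝ) * Real.exp (-l ^ 7 / 5) ≤ u * Real.exp (-l ^ 7 / 5) :=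
        mul_le_mul_of_nonneg_right hv3 hE0.le
      linarith)
  have hb1 : 1 / Real.log ((v₀ + 1 : ℕ) : ℝ) ≤ 1 := by
    rw [div_le_one₀ (Real.log_pos (by push_cast; linarith))]
    rw [Real.le_log_iff_exp_le (by push_cast; linarith)]
    have := Real.exp_one_lt_d9
    push_cast
    linarith
  -- the sum over the primes
  have hsplit : ∑ p ∈ (Icc 1 u).filter Nat.Prime, χ (p : ZMod f) =
      ∑ p ∈ (Ioc 0 v₀).filter Nat.Prime, χ (p : ZMod f) +
        (∑ n ∈ Ioc v₀ u, ((1 / Real.log n : ℝ) : ℂ) * aT χ n -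
          ∑ n ∈ (Ioc v₀ u).filter (fun n => ¬ n.Prime), ((1 / Real.log n : ℝ) : ℂ) * aT χ n) := by
    rw [Icc_eq_Ioc, sum_filter, sum_filter, ← sum_Ioc_consecutive _ (Nat.zero_le _) hv3']
    congr 1
    rw [← sum_filter, ← sum_filter_add_sum_filter_not (Ioc v₀ u) Nat.Prime
      (fun n => ((1 / Real.log n : ℝ) : ℂ) * aT χ n), add_sub_cancel_right]
    apply sum_congr rfl
    intro n hn
    rw [mem_filter, mem_Ioc] at hn
    unfold aT
    rw [ArithmeticFunction.vonMangoldt_apply_prime hn.2, ← mul_assoc, ← Complex.ofReal_mul]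
    have : 1 / Real.log n * Real.log n = 1 := by
      have : 0 < Real.log n := Real.log_pos (by exact_mod_cast hn.2.one_lt)
      field_simp
    rw [this]
    simp
  rw [hsplit]
  have n1 : ‖∑ p ∈ (Ioc 0 v₀).filter Nat.Prime, χ (p : ZMod f)‖ ≤ v₀ := by
    refine (norm_sum_le_of_le (f := fun p : ℕ => χ (p : ZMod f)) (n := fun _ => (1 : ℝ)) _
      (fun p _ => χ.norm_le_one _)).trans ?_
    rw [sum_const, nsmul_eq_mul, mul_one]
    have h1 : ((Ioc 0 v₀).filter Nat.Prime).card ≤ (Ioc 0 v₀).card := card_filter_le _ _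
    rw [Nat.card_Ioc, Nat.sub_zero] at h1
    exact_mod_cast h1
  have n2 : ‖∑ n ∈ (Ioc v₀ u).filter (fun n => ¬ n.Prime), ((1 / Real.log n : ℝ) : ℂ) * aT χ n‖ ≤
      2 * √(u : ℝ) * Real.log u := by
    have hu1' : (1 : ℝ) ≤ u := by linarith
    refine le_trans ?_ (Chebyshev.psi_sub_theta_le (x := (u : ℝ)) hu1')
    rw [Chebyshev.psi_sub_theta_eq_sum_not_prime, Nat.floor_natCast]
    refine (norm_sum_le _ _).trans ?_
    refine le_trans (sum_le_sum (g := fun n => ArithmeticFunction.vonMangoldt n) ?_)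
      (sum_le_sum_of_subset_of_nonneg ?_ ?_)
    · intro n hn
      rw [mem_filter, mem_Ioc] at hn
      rw [norm_mul, Complex.norm_real, Real.norm_eq_abs]
      have hn8 : (8 : ℝ) < n := by
        have : (v₀ : ℝ) < n := by exact_mod_cast hn.1.1
        linarith
      have h1 : 1 ≤ Real.log n := by
        rw [Real.le_log_iff_exp_le (by linarith)]
        have := Real.exp_one_lt_d9
        linarith
      have h2 : |1 / Real.log (n : ℝ)| ≤ 1 := by
        rw [abs_of_nonneg (by positivity), div_le_one₀ (by linarith)]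
        exact h1
      calc |1 / Real.log (n : ℝ)| * ‖aT χ n‖ ≤ 1 * ‖aT χ n‖ := mul_le_mul_of_nonneg_right h2 (norm_nonneg _)
        _ = ‖aT χ n‖ := one_mul _
        _ ≤ _ := aT_le χ n
    · intro n hn
      rw [mem_filter, mem_Ioc] at hn ⊢
      exact ⟨⟨by omega, hn.1.2⟩, hn.2⟩
    · intro n _ _
      exact ArithmeticFunction.vonMangoldt_nonneg
  have n3 := habel.trans (mul_le_mul_of_nonneg_left hb1 (by positivity))
  rw [mul_one] at n3
  refine (norm_add_le _ _).trans ((add_le_add n1 ((norm_sub_le _ _).trans (add_le_add n3 n2))).trans ?_)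
  -- arithmetic
  set s := √(u : ℝ) with hs
  have hss : s * s = u := Real.mul_self_sqrt hu0.le
  have hsY : Y ≤ s := by
    rw [hs]
    apply Real.le_sqrt_of_sq_le
    rw [← hY2]; exact hu1
  have hs0 : 0 < s := by linarith
  have hlogu : Real.log u ≤ Real.exp l := by
    rw [hexpl]; exact Real.log_le_log hu0 hu2
  have hlogu0 : 0 ≤ Real.log u := Real.log_nonneg (by linarith)
  have q1 : (v₀ : ℝ) + 2 * s * Real.log u ≤ s * (4 * Real.exp l) := by
    have : (v₀ : ℝ) ≤ 2 * s := by linarith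
    nlinarith
  have q2 : s * (4 * Real.exp l) ≤ u * Real.exp (-l ^ 7 / 8) / 2 := by
    have h1 : 8 * Real.exp l * Real.exp (l ^ 7 / 5) ≤ s := by
      rw [hX20] at hsY
      exact hc.trans hsY
    have h2 : Real.exp (l ^ 7 / 8) ≤ Real.exp (l ^ 7 / 5) := by
      apply Real.exp_le_exp.2
      have : 0 ≤ l ^ 7 := by positivity
      linarith
    have h3 : 8 * Real.exp l * Real.exp (l ^ 7 / 8) ≤ s :=
      (mul_le_mul_of_nonneg_left h2 (by positivity)).trans h1
    have h4 : 8 * Real.exp l ≤ s * Real.exp (-l ^ 7 / 8) := by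
      have h5 : Real.exp (l ^ 7 / 8) * Real.exp (-l ^ 7 / 8) = 1 := by
        rw [← Real.exp_add]
        have : l ^ 7 / 8 + -l ^ 7 / 8 = 0 := by ring
        rw [this, Real.exp_zero]
      calc 8 * Real.exp l = 8 * Real.exp l * (Real.exp (l ^ 7 / 8) * Real.exp (-l ^ 7 / 8)) := by
            rw [h5, mul_one]
        _ = (8 * Real.exp l * Real.exp (l ^ 7 / 8)) * Real.exp (-l ^ 7 / 8) := by ring
        _ ≤ _ := mul_le_mul_of_nonneg_right h3 (Real.exp_pos _).le
    have h5 := mul_le_mul_of_nonneg_left h4 hs0.le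
    rw [← hss]
    linarith [show s * s * Real.exp (-l ^ 7 / 8) = s * (s * Real.exp (-l ^ 7 / 8)) by ring]
  have q3 : u * Real.exp (-l ^ 7 / 5) ≤ u * Real.exp (-l ^ 7 / 8) / 2 := by
    have h1 : 2 * Real.exp (-l ^ 7 / 5) ≤ Real.exp (-l ^ 7 / 8) := by
      have h2 : (2 : ℝ) ≤ Real.exp (l ^ 7 / 5 - l ^ 7 / 8) := by
        have h3 := Real.add_one_le_exp (l ^ 7 / 5 - l ^ 7 / 8)
        have h4 : l ≤ l ^ 7 := by
          have : 1 ≤ l ^ 6 := one_le_pow₀ (by linarith)
          nlinarith [show l ^ 7 = l ^ 6 * l by ring]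
        linarith
      have h3 : Real.exp (-l ^ 7 / 8) = Real.exp (l ^ 7 / 5 - l ^ 7 / 8) * Real.exp (-l ^ 7 / 5) := by
        rw [← Real.exp_add]; congr 1; ring
      rw [h3]
      exact mul_le_mul_of_nonneg_right h2 hE0.le
    have := mul_le_mul_of_nonneg_left h1 hu0.le
    linarith
  linarith

end Pool.Agent.Q237.CR
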