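import Pool.Agent.Q117.CR.Stm
import Pool.Agent.Q237.CR.PrB

/-! # Project CR: JOB PR -/

set_option autoImplicit false

namespace Pool.Agent.Q117.CR

theorem pr1 : St_PR := Pool.Agent.Q237.CR.pr_core

end Pool.Agent.Q117.CR
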