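import Mathlib
import Pool.Agent.H410R2.Iface

/-! # Project CR: JOB PR, general lemmas -/

set_option autoImplicit false

namespace Pool.Agent.Q237.CR

open Finset Filter Topology
open Pool.Agent.H410R2 (psiLog)

/-- the terms -/
noncomputable def aT {f : ℕ} (χ : DirichletCharacter ℂ f) (n : ℕ) : ℂ :=
  ((ArithmeticFunction.vonMangoldt n : ℝ) : ℂ) * χ (n : ZMod f)

theorem aT_le {f : ℕ} (χ : DirichletCharacter ℂ f) (n : ℕ) : ‖aT χ n‖ ≤ ArithmeticFunction.vonMangoldt n := by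
  unfold aT
  rw [norm_mul, Complex.norm_real, Real.norm_eq_abs, abs_of_nonneg ArithmeticFunction.vonMangoldt_nonneg]
  exact mul_le_of_le_one_right ArithmeticFunction.vonMangoldt_nonneg (χ.norm_le_one _)

theorem Icc_eq_Ioc (N : ℕ) : Icc 1 N = Ioc 0 N := by
  ext n; rw [mem_Icc, mem_Ioc]; omega

theorem psiLog_eq {f : ℕ} (χ : DirichletCharacter ℂ f) (x : ℝ) :
    psiLog x f χ = ∑ n ∈ Ioc 0 ⌊x⌋₊, aT χ n * ((Real.log (x / n) : ℝ) : ℂ) := by
  unfold psiLog
  rw [Icc_eq_Ioc]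
  rfl

/-- the difference of the log weights -/
theorem stepA {f : ℕ} (χ : DirichletCharacter ℂ f) (v : ℕ) (hv : 1 ≤ v) (η : ℝ) (h0 : 0 < η) (h1 : η ≤ 1) :
    η * ‖∑ n ∈ Ioc 0 v, aT χ n‖ ≤ ‖psiLog (v * Real.exp η) f χ‖ + ‖psiLog (v : ℝ) f χ‖ +
      η * (2 * η * v * Real.log (3 * v)) := by
  have hv0 : (0 : ℝ) < v := by exact_mod_cast hv
  have hexp : (0 : ℝ) < Real.exp η := Real.exp_pos _
  have he1 : 1 ≤ Real.exp η := Real.one_le_exp h0.le
  have he3 : Real.exp η ≤ 3 := by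
    have := Real.exp_le_exp.2 h1
    have := Real.exp_one_lt_d9
    linarith
  set w : ℝ := v * Real.exp η with hw
  have hw0 : 0 < w := by positivity
  have hvw : (v : ℝ) ≤ w := le_mul_of_one_le_right hv0.le he1
  have hvf : v ≤ ⌊w⌋₊ := Nat.le_floor hvw
  have e1 : psiLog w f χ = ∑ n ∈ Ioc 0 v, aT χ n * ((Real.log (w / n) : ℝ) : ℂ) +
      ∑ n ∈ Ioc v ⌊w⌋₊, aT χ n * ((Real.log (w / n) : ℝ) : ℂ) := by
    rw [psiLog_eq, sum_Ioc_consecutive _ (Nat.zero_le _) hvf]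
  have e2 : ∑ n ∈ Ioc 0 v, aT χ n * ((Real.log (w / n) : ℝ) : ℂ) =
      psiLog (v : ℝ) f χ + (η : ℂ) * ∑ n ∈ Ioc 0 v, aT χ n := by
    rw [psiLog_eq, Nat.floor_natCast, mul_sum, ← sum_add_distrib]
    apply sum_congr rfl
    intro n hn
    rw [mem_Ioc] at hn
    have hn0 : (0 : ℝ) < n := by exact_mod_cast hn.1
    have e3 : Real.log (w / n) = Real.log (v / n) + η := by
      have : w / n = (v / n) * Real.exp η := by rw [hw]; ring
      rw [this, Real.log_mul (by positivity) (by positivity), Real.log_exp]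
    rw [e3]
    push_cast
    ring
  have e3 : (η : ℂ) * ∑ n ∈ Ioc 0 v, aT χ n = psiLog w f χ - psiLog (v : ℝ) f χ -
      ∑ n ∈ Ioc v ⌊w⌋₊, aT χ n * ((Real.log (w / n) : ℝ) : ℂ) := by
    rw [e1, e2]; ring
  have e4 : ‖∑ n ∈ Ioc v ⌊w⌋₊, aT χ n * ((Real.log (w / n) : ℝ) : ℂ)‖ ≤ η * (2 * η * v * Real.log (3 * v)) := by
    have h2 : ∀ n ∈ Ioc v ⌊w⌋₊, ‖aT χ n * ((Real.log (w / n) : ℝ) : ℂ)‖ ≤ Real.log (3 * v) * η := by
      intro n hn
      rw [mem_Ioc] at hn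
      have hvn : (v : ℝ) < n := by exact_mod_cast hn.1
      have hn0 : (0 : ℝ) < n := hv0.trans hvn
      have hnw : (n : ℝ) ≤ w := (Nat.le_floor_iff hw0.le).1 hn.2
      rw [norm_mul, Complex.norm_real, Real.norm_eq_abs]
      have h3 : 0 ≤ Real.log (w / n) := Real.log_nonneg (by rw [le_div_iff₀ hn0]; linarith)
      have h4 : Real.log (w / n) ≤ η := by
        have h5 : w / n ≤ Real.exp η := by
          rw [div_le_iff₀ hn0, hw, mul_comm]
          exact mul_le_mul_of_nonneg_left hvn.le hexp.le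
        have := Real.log_le_log (by positivity) h5
        rwa [Real.log_exp] at this
      have h6 : ‖aT χ n‖ ≤ Real.log (3 * v) := by
        refine (aT_le χ n).trans (ArithmeticFunction.vonMangoldt_le_log.trans ?_)
        apply Real.log_le_log hn0
        refine hnw.trans ?_
        rw [hw, mul_comm]
        exact mul_le_mul_of_nonneg_right he3 hv0.le
      rw [abs_of_nonneg h3]
      exact mul_le_mul h6 h4 h3 ((norm_nonneg _).trans h6)
    refine (norm_sum_le_of_le _ h2).trans ?_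
    rw [sum_const, nsmul_eq_mul, Nat.card_Ioc]
    have h3 : ((⌊w⌋₊ - v : ℕ) : ℝ) ≤ 2 * η * v := by
      rw [Nat.cast_sub hvf]
      have h4 : ((⌊w⌋₊ : ℕ) : ℝ) ≤ w := Nat.floor_le hw0.le
      have h5 : Real.exp η - 1 ≤ 2 * η := by
        have := Real.abs_exp_sub_one_le (x := η) (by rw [abs_of_pos h0]; exact h1)
        rw [abs_of_pos h0] at this
        exact (le_abs_self _).trans this
      have h6 : w - v ≤ 2 * η * v := by
        have : w - v = (Real.exp η - 1) * v := by rw [hw]; ring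
        rw [this]
        exact mul_le_mul_of_nonneg_right h5 hv0.le
      linarith
    have h4 : 0 ≤ Real.log (3 * v) * η := by
      apply mul_nonneg (Real.log_nonneg _) h0.le
      have : (1 : ℝ) ≤ v := by exact_mod_cast hv
      linarith
    calc ((⌊w⌋₊ - v : ℕ) : ℝ) * (Real.log (3 * v) * η) ≤ (2 * η * v) * (Real.log (3 * v) * η) :=
          mul_le_mul_of_nonneg_right h3 h4
      _ = _ := by ring
  have e5 : η * ‖∑ n ∈ Ioc 0 v, aT χ n‖ = ‖(η : ℂ) * ∑ n ∈ Ioc 0 v, aT χ n‖ := by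
    rw [norm_mul, Complex.norm_real, Real.norm_eq_abs, abs_of_pos h0]
  rw [e5, e3]
  refine (norm_sub_le _ _).trans (add_le_add (norm_sub_le _ _) e4)

/-- Abel summation -/
theorem abelS (a : ℕ → ℂ) (b : ℕ → ℝ) (v u : ℕ) (M : ℝ) (hvu : v ≤ u) (hb0 : ∀ n, 0 ≤ b n) (hb : ∀ n, v < n → b (n + 1) ≤ b n)
    (hM : ∀ m, v ≤ m → m ≤ u → ‖∑ n ∈ Ioc v m, a n‖ ≤ M) :
    ‖∑ n ∈ Ioc v u, (b n : ℂ) * a n‖ ≤ M * b (v + 1) := by
  have hM0' : 0 ≤ M := (norm_nonneg _).trans (hM v le_rfl hvu)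
  rcases Nat.lt_or_ge v u with huv | huv
  swap
  · rw [Ioc_eq_empty_of_le huv, sum_empty, norm_zero]
    exact mul_nonneg hM0' (hb0 _)
  have key : ∀ m, v + 1 ≤ m → m ≤ u →
      ‖∑ n ∈ Ioc v m, (b n : ℂ) * a n - (b m : ℂ) * ∑ n ∈ Ioc v m, a n‖ ≤ M * (b (v + 1) - b m) := by
    intro m hm
    induction m, hm using Nat.le_induction with
    | base =>
      intro _
      rw [Nat.Ioc_succ_singleton, sum_singleton, sum_singleton, sub_self, sub_self, norm_zero, mul_zero]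
    | succ m hm ih =>
      intro hmu
      have h1 := ih (by omega)
      have h2 := hM m (by omega) (by omega)
      have e1 : ∑ n ∈ Ioc v (m + 1), (b n : ℂ) * a n = ∑ n ∈ Ioc v m, (b n : ℂ) * a n + (b (m + 1) : ℂ) * a (m + 1) :=
        sum_Ioc_succ_top (by omega) _
      have e2 : ∑ n ∈ Ioc v (m + 1), a n = ∑ n ∈ Ioc v m, a n + a (m + 1) := sum_Ioc_succ_top (by omega) _
      rw [e1, e2]
      have e3 : ∑ n ∈ Ioc v m, (b n : ℂ) * a n + (b (m + 1) : ℂ) * a (m + 1) -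
          (b (m + 1) : ℂ) * (∑ n ∈ Ioc v m, a n + a (m + 1)) =
          (∑ n ∈ Ioc v m, (b n : ℂ) * a n - (b m : ℂ) * ∑ n ∈ Ioc v m, a n) +
            ((b m - b (m + 1) : ℝ) : ℂ) * ∑ n ∈ Ioc v m, a n := by
        push_cast; ring
      rw [e3]
      refine (norm_add_le _ _).trans ?_
      rw [norm_mul, Complex.norm_real, Real.norm_eq_abs, abs_of_nonneg (sub_nonneg.2 (hb m (by omega)))]
      have h3 := mul_le_mul_of_nonneg_left h2 (sub_nonneg.2 (hb m (by omega)))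
      linarith
  have h1 := key u huv le_rfl
  have h2 := hM u huv.le le_rfl
  have e1 : ∑ n ∈ Ioc v u, (b n : ℂ) * a n = (∑ n ∈ Ioc v u, (b n : ℂ) * a n - (b u : ℂ) * ∑ n ∈ Ioc v u, a n) +
      (b u : ℂ) * ∑ n ∈ Ioc v u, a n := by ring
  rw [e1]
  refine (norm_add_le _ _).trans ?_
  rw [norm_mul, Complex.norm_real, Real.norm_eq_abs, abs_of_nonneg (hb0 u)]
  have h3 := mul_le_mul_of_nonneg_left h2 (hb0 u)
  linarith

end Pool.Agent.Q237.CR
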