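import Pool.Agent.Q117.CR.Stm

/-! # Project CR: JOBS SWB and BLS -/

set_option autoImplicit false

namespace Pool.Agent.Q117.CR

open Finset Filter
open Pool.Agent.H378R2.LSBV (QQ wt mem_QQ wt_nonneg wt_mul_le sum_divisors_coprime sum_wt)
open Pool.Agent.Helper112
open Pool.Agent.Y261.CH (al be EP PP sq_al sq_be)

theorem res_al (M₀ a' e : ℕ) (h : ∀ p : ℕ, p.Prime → p ∣ a' → p ≤ M₀) :
    BLB.res (a' * e) (al M₀) = BLB.res e (al M₀) := by
  funext b
  unfold BLB.res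
  by_cases hb : b.Prime ∧ M₀ < b
  · have hc : b.Coprime a' := by
      rw [hb.1.coprime_iff_not_dvd]
      intro hd
      have := h b hb.1 hd
      omega
    by_cases he : b.Coprime e
    · rw [if_pos (Nat.Coprime.mul_right hc he), if_pos he]
    · rw [if_neg (fun hh => he (Nat.Coprime.coprime_mul_left_right hh)), if_neg he]
  · have : al M₀ b = 0 := by unfold al; rw [if_neg hb]
    rw [this]
    split_ifs <;> rfl

theorem res_be (T : Finset ℕ) (a' e : ℕ) (h : ∀ p : ℕ, p.Prime → p ∣ a' → ∀ n ∈ T, ¬ p ∣ n) :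
    BLB.res (a' * e) (be T) = BLB.res e (be T) := by
  funext b
  unfold BLB.res
  by_cases hb : b ∈ T
  · have hc : b.Coprime a' := by
      rw [Nat.coprime_iff_gcd_eq_one]
      by_contra hne
      obtain ⟨p, hp, hpd⟩ := Nat.exists_prime_and_dvd hne
      exact h p hp (hpd.trans (Nat.gcd_dvd_right _ _)) b hb (hpd.trans (Nat.gcd_dvd_left _ _))
    by_cases he : b.Coprime e
    · rw [if_pos (Nat.Coprime.mul_right hc he), if_pos he]
    · rw [if_neg (fun hh => he (Nat.Coprime.coprime_mul_left_right hh)), if_neg he]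
  · have : be T b = 0 := by unfold be; rw [if_neg hb]
    rw [this]
    split_ifs <;> rfl

/-- the sum over the multiples of `b` -/
theorem sum_mult (A W ps R b : ℕ) (hb : 1 ≤ b) (G : ℕ → ℝ) (hG : ∀ e, 0 ≤ G e) :
    ∑ q ∈ (QQ W ps R).filter (fun q => b ∣ q), wt A q * G (q / b) ≤ wt A b * ∑ e ∈ Icc 1 R, wt A e * G e := by
  have h1 : ∀ q ∈ (QQ W ps R).filter (fun q => b ∣ q), wt A q * G (q / b) ≤
      wt A b * (wt A (q / b) * G (q / b)) := by
    intro q hq
    rw [mem_filter, mem_QQ] at hq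
    obtain ⟨⟨⟨hq1, _⟩, _⟩, hbq⟩ := hq
    have h2 : b * (q / b) = q := Nat.mul_div_cancel' hbq
    have h3 : 1 ≤ q / b := Nat.div_pos (Nat.le_of_dvd hq1 hbq) hb
    have := wt_mul_le A b (q / b) hb h3
    rw [h2] at this
    rw [← mul_assoc]
    exact mul_le_mul_of_nonneg_right this (hG _)
  refine (sum_le_sum h1).trans ?_
  rw [← mul_sum]
  apply mul_le_mul_of_nonneg_left _ (wt_nonneg A b)
  rw [← sum_image (f := fun e => wt A e * G e) (g := fun q => q / b)]
  · apply sum_le_sum_of_subset_of_nonneg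
    · intro e he
      rw [mem_image] at he
      obtain ⟨q, hq, rfl⟩ := he
      rw [mem_filter, mem_QQ] at hq
      obtain ⟨⟨⟨hq1, hq2⟩, _⟩, hbq⟩ := hq
      rw [mem_Icc]
      exact ⟨Nat.div_pos (Nat.le_of_dvd hq1 hbq) hb, (Nat.div_le_self _ _).trans hq2⟩
    · intro e _ _
      exact mul_nonneg (wt_nonneg A e) (hG e)
  · intro q hq q' hq' h
    simp only [Finset.mem_coe, mem_filter] at hq hq'
    have h1 := Nat.div_mul_cancel hq.2
    have h2 := Nat.div_mul_cancel hq'.2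
    simp only at h
    rw [← h1, ← h2, h]

theorem swb : St_SWB := by
  intro A W ps R M₀ M₁ Y T hW hp
  set G : ℕ → ℕ → ℝ := fun e f => BLB.P M₁ Y (BLB.res e (al M₀)) (BLB.res e (be T)) f with hG
  have hG0 : ∀ e f, 0 ≤ G e f := fun e f => BLB.P_nonneg _ _ _ _ _
  have e1 : ∀ q ∈ QQ W ps R, (q.divisors.card : ℝ) ^ A * ∑ f ∈ (W * q).divisors.filter (fun f => f ≠ 1),
      (1 / (Nat.totient (W * q) : ℝ)) * BLB.P M₁ Y (BLB.res (W * q / f) (al M₀)) (BLB.res (W * q / f) (be T)) f =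
      ∑ p ∈ (W.divisors ×ˢ QQ W ps R).filter (fun p => p.1 * p.2 ≠ 1),
        if p.2 ∣ q then (1 / (Nat.totient W : ℝ)) * (wt A q * G (q / p.2) (p.1 * p.2)) else 0 := by
    intro q hq
    rw [mem_QQ] at hq
    obtain ⟨⟨hq1, hq2⟩, hqs, hqc⟩ := hq
    have hc : W.Coprime q := (Nat.Coprime.coprime_mul_right_right hqc).symm
    rw [sum_divisors_coprime (fun f => (1 / (Nat.totient (W * q) : ℝ)) *
      BLB.P M₁ Y (BLB.res (W * q / f) (al M₀)) (BLB.res (W * q / f) (be T)) f) W q hW hq1 hc,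
      Nat.totient_mul hc]
    rw [← sum_filter, filter_filter, mul_sum]
    apply sum_congr
    · ext p
      rw [mem_filter, mem_filter, mem_product, mem_product, Nat.mem_divisors, Nat.mem_divisors,
        mem_QQ]
      constructor
      · rintro ⟨⟨⟨h1, h2⟩, h3, h4⟩, h5⟩
        refine ⟨⟨⟨h1, h2⟩, ⟨⟨Nat.pos_of_dvd_of_pos h3 hq1, (Nat.le_of_dvd hq1 h3).trans hq2⟩,
          hqs.squarefree_of_dvd h3, hqc.coprime_dvd_left h3⟩⟩, h5, h3⟩
      · rintro ⟨⟨⟨h1, h2⟩, _⟩, h5, h3⟩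
        exact ⟨⟨⟨h1, h2⟩, h3, by omega⟩, h5⟩
    · intro p hpm
      rw [mem_filter, mem_product, Nat.mem_divisors, mem_QQ] at hpm
      obtain ⟨⟨⟨ha, _⟩, ⟨hb1, _⟩, _⟩, _, hbq⟩ := hpm
      have hdiv : W * q / (p.1 * p.2) = (W / p.1) * (q / p.2) := by
        rw [Nat.mul_div_mul_comm ha hbq]
      have hWa : ∀ r : ℕ, r.Prime → r ∣ W / p.1 → r ∣ W := fun r _ hr => hr.trans (Nat.div_dvd_of_dvd ha)
      have hres1 : BLB.res (W * q / (p.1 * p.2)) (al M₀) = BLB.res (q / p.2) (al M₀) := by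
        rw [hdiv]
        exact res_al M₀ _ _ fun r hr hrd => (hp r hr (hWa r hr hrd)).1
      have hres2 : BLB.res (W * q / (p.1 * p.2)) (be T) = BLB.res (q / p.2) (be T) := by
        rw [hdiv]
        exact res_be T _ _ fun r hr hrd => (hp r hr (hWa r hr hrd)).2
      rw [hres1, hres2]
      unfold wt
      simp only [hG]
      push_cast
      have hφ : (Nat.totient q : ℝ) ≠ 0 := by
        have := Nat.totient_pos.mpr hq1
        positivity
      have hφ' : (Nat.totient W : ℝ) ≠ 0 := by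
        have := Nat.totient_pos.mpr hW
        positivity
      field_simp
  rw [sum_congr rfl e1, sum_comm, mul_sum]
  apply sum_le_sum
  intro p hpm
  rw [mem_filter, mem_product, mem_QQ] at hpm
  rw [← sum_filter, ← mul_sum]
  apply mul_le_mul_of_nonneg_left _ (by positivity)
  have h2 := sum_mult A W ps R p.2 hpm.1.2.1.1 (fun e => G e (p.1 * p.2)) (fun e => hG0 e _)
  refine h2.trans (le_of_eq ?_)
  unfold TB
  rfl

/-! ### BLS -/

theorem sumP_le (M₀ M₁ Y F e : ℕ) (T : Finset ℕ) :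
    ∑ f ∈ Icc 2 F, BLB.P M₁ Y (BLB.res e (al M₀)) (BLB.res e (be T)) f ≤
      6 * ((Real.sqrt M₁ + F) * (Real.sqrt Y + F)) * (Real.sqrt M₁ * Real.sqrt Y) := by
  have h1 := BLB.P_sieve M₁ Y (BLB.res e (al M₀)) (BLB.res e (be T)) F
  have h2 : 6 * ((Real.sqrt M₁ + F) * (Real.sqrt Y + F)) *
        (Real.sqrt (∑ b ∈ Icc 1 M₁, BLB.res e (al M₀) b ^ 2) * Real.sqrt (∑ c ∈ Icc 1 Y, BLB.res e (be T) c ^ 2)) ≤
      6 * ((Real.sqrt M₁ + F) * (Real.sqrt Y + F)) * (Real.sqrt M₁ * Real.sqrt Y) := by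
    apply mul_le_mul_of_nonneg_left _ (by positivity)
    exact mul_le_mul (sq_al M₀ M₁ e) (sq_be T Y e) (Real.sqrt_nonneg _) (Real.sqrt_nonneg _)
  refine le_trans ?_ (h1.trans h2)
  refine le_trans (sum_le_sum (g := fun f : ℕ => ((f : ℝ) / (Nat.totient f : ℝ)) *
      BLB.P M₁ Y (BLB.res e (al M₀)) (BLB.res e (be T)) f) ?_)
    (sum_le_sum_of_subset_of_nonneg (Icc_subset_Icc_left (by norm_num))
      fun f _ _ => mul_nonneg (by positivity) (BLB.P_nonneg _ _ _ _ _))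
  intro f hf
  rw [mem_Icc] at hf
  have hφ : (0 : ℝ) < Nat.totient f := by exact_mod_cast Nat.totient_pos.mpr (by omega)
  have hφf : (Nat.totient f : ℝ) ≤ f := by exact_mod_cast Nat.totient_le f
  have : 1 ≤ (f : ℝ) / (Nat.totient f : ℝ) := by rw [le_div_iff₀ hφ]; linarith
  exact le_mul_of_one_le_left (BLB.P_nonneg _ _ _ _ _) this

theorem blk_arith {X : ℝ} (hX : 1 ≤ X) {m y F : ℝ} (hm1 : X ^ (1 / 9 : ℝ) ≤ m) (hm2 : m ≤ X ^ (2 / 5 : ℝ))
    (hy : 0 ≤ y) (hmy : m * y ≤ 5 * X) (hF0 : 0 ≤ F) (hF : F ≤ X ^ (49954 / 100000 : ℝ)) :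
    6 * ((Real.sqrt m + F) * (Real.sqrt y + F)) * (Real.sqrt m * Real.sqrt y) ≤
      66 * (X + X ^ (9999 / 10000 : ℝ) * F) := by
  have hX0 : 0 < X := by linarith
  have hm0 : 0 < m := (Real.rpow_pos_of_pos hX0 _).trans_le hm1
  set a := Real.sqrt m with ha
  set b := Real.sqrt y with hb
  have haa : a * a = m := Real.mul_self_sqrt hm0.le
  have hbb : b * b = y := Real.mul_self_sqrt hy
  have ha0 : 0 < a := Real.sqrt_pos.2 hm0
  have hb0 : 0 ≤ b := Real.sqrt_nonneg _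
  set P := X ^ (9999 / 10000 : ℝ) with hP
  have hP0 : 0 < P := Real.rpow_pos_of_pos hX0 _
  have hab : a * b ≤ 3 * X ^ (1 / 2 : ℝ) := by
    have h1 : (a * b) ^ 2 ≤ (3 * X ^ (1 / 2 : ℝ)) ^ 2 := by
      have e1 : (a * b) ^ 2 = m * y := by rw [← haa, ← hbb]; ring
      have e2 : (3 * X ^ (1 / 2 : ℝ)) ^ 2 = 9 * X := by
        rw [mul_pow, ← Real.rpow_natCast (X ^ (1 / 2 : ℝ)), ← Real.rpow_mul hX0.le]
        norm_num
      rw [e1, e2]; linarith
    exact le_of_sq_le_sq h1 (by positivity)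
  -- the four terms
  have t1 : (a * b) * (a * b) ≤ 5 * X := by
    have : (a * b) * (a * b) = m * y := by rw [← haa, ← hbb]; ring
    rw [this]; exact hmy
  have t2 : F * (a * (a * b)) ≤ 3 * (F * P) := by
    have h1 : a ≤ X ^ (1 / 5 : ℝ) := by
      rw [ha, Real.sqrt_le_left (by positivity)]
      refine hm2.trans (le_of_eq ?_)
      rw [← Real.rpow_natCast, ← Real.rpow_mul hX0.le]; norm_num
    have h2 : a * (a * b) ≤ X ^ (1 / 5 : ℝ) * (3 * X ^ (1 / 2 : ℝ)) :=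
      mul_le_mul h1 hab (by positivity) (by positivity)
    have h3 : X ^ (1 / 5 : ℝ) * (3 * X ^ (1 / 2 : ℝ)) ≤ 3 * P := by
      have e : X ^ (1 / 5 : ℝ) * (3 * X ^ (1 / 2 : ℝ)) = 3 * X ^ (1 / 5 + 1 / 2 : ℝ) := by
        rw [Real.rpow_add hX0]; ring
      rw [e, hP]
      exact mul_le_mul_of_nonneg_left (Real.rpow_le_rpow_of_exponent_le hX (by norm_num)) (by norm_num)
    calc F * (a * (a * b)) ≤ F * (3 * P) := mul_le_mul_of_nonneg_left (h2.trans h3) hF0
      _ = _ := by ring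
  have t3 : F * (b * (a * b)) ≤ 5 * (F * P) := by
    have h1 : X ^ (1 / 18 : ℝ) ≤ a := by
      rw [ha]
      apply Real.le_sqrt_of_sq_le
      refine le_trans (le_of_eq ?_) hm1
      rw [← Real.rpow_natCast, ← Real.rpow_mul hX0.le]; norm_num
    have h2 : X ^ (1 / 18 : ℝ) * (b * (a * b)) ≤ 5 * X := by
      calc X ^ (1 / 18 : ℝ) * (b * (a * b)) ≤ a * (b * (a * b)) :=
            mul_le_mul_of_nonneg_right h1 (by positivity)
        _ = (a * b) * (a * b) := by ring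
        _ ≤ _ := t1
    have h3 : b * (a * b) ≤ 5 * P := by
      have e : X = X ^ (1 / 18 : ℝ) * X ^ (17 / 18 : ℝ) := by
        rw [← Real.rpow_add hX0]; norm_num
      have h4 : X ^ (17 / 18 : ℝ) ≤ P := Real.rpow_le_rpow_of_exponent_le hX (by norm_num)
      have h5 : 0 < X ^ (1 / 18 : ℝ) := Real.rpow_pos_of_pos hX0 _
      have h6 : X ^ (1 / 18 : ℝ) * (b * (a * b)) ≤ X ^ (1 / 18 : ℝ) * (5 * X ^ (17 / 18 : ℝ)) := by
        refine h2.trans (le_of_eq ?_)
        nth_rewrite 1 [e]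
        ring
      have h7 := le_of_mul_le_mul_left h6 h5
      linarith
    calc F * (b * (a * b)) ≤ F * (5 * P) := mul_le_mul_of_nonneg_left h3 hF0
      _ = _ := by ring
  have t4 : F * F * (a * b) ≤ 3 * (F * P) := by
    have h1 : F * (a * b) ≤ 3 * P := by
      calc F * (a * b) ≤ X ^ (49954 / 100000 : ℝ) * (3 * X ^ (1 / 2 : ℝ)) :=
            mul_le_mul hF hab (by positivity) (by positivity)
        _ = 3 * X ^ (49954 / 100000 + 1 / 2 : ℝ) := by rw [Real.rpow_add hX0]; ring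
        _ ≤ 3 * P := by
            rw [hP]
            exact mul_le_mul_of_nonneg_left (Real.rpow_le_rpow_of_exponent_le hX (by norm_num)) (by norm_num)
    calc F * F * (a * b) = F * (F * (a * b)) := by ring
      _ ≤ F * (3 * P) := mul_le_mul_of_nonneg_left h1 hF0
      _ = _ := by ring
  have e : 6 * ((a + F) * (b + F)) * (a * b) =
      6 * ((a * b) * (a * b) + F * (a * (a * b)) + F * (b * (a * b)) + F * F * (a * b)) := by ring
  rw [e]
  linarith

theorem bls : St_BLS := by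
  intro A
  set K := 2 ^ (A + 1) with hK
  refine ⟨K + 1, ⌈Real.exp (66 * 2 ^ K)⌉₊, fun X hX M₀ M₁ Y T hB F hF => ?_⟩
  have hX' : Real.exp (66 * 2 ^ K) ≤ (X : ℝ) := (Nat.le_ceil _).trans (by exact_mod_cast hX)
  have hX0 : (0 : ℝ) < X := (Real.exp_pos _).trans_le hX'
  have hL : 66 * 2 ^ K ≤ Real.log X := (Real.le_log_iff_exp_le hX0).2 hX'
  have h2K : (1 : ℝ) ≤ 2 ^ K := one_le_pow₀ (by norm_num)
  have hX1 : (1 : ℝ) ≤ X := by
    have : 0 < Real.log X := by linarith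
    by_contra h
    push_neg at h
    have := Real.log_nonpos hX0.le h.le
    linarith
  have hL1 : 1 ≤ Real.log X := by linarith
  have hm1 : (X : ℝ) ^ (1 / 9 : ℝ) ≤ (M₁ : ℝ) := hB.a.trans (by exact_mod_cast hB.b)
  have hmy : (M₁ : ℝ) * Y ≤ 5 * X := by exact_mod_cast hB.d
  have har := blk_arith hX1 hm1 hB.c (Nat.cast_nonneg Y) hmy (Nat.cast_nonneg F) hF
  have hnn : 0 ≤ (X : ℝ) + (X : ℝ) ^ (9999 / 10000 : ℝ) * F := by positivity
  have h1 : ∑ f ∈ Icc 2 F, TB A (RX X) M₀ M₁ Y T f ≤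
      (∑ e ∈ Icc 1 (RX X), wt A e) * (66 * ((X : ℝ) + (X : ℝ) ^ (9999 / 10000 : ℝ) * F)) := by
    unfold TB
    rw [sum_comm, sum_mul]
    apply sum_le_sum
    intro e _
    rw [← mul_sum]
    exact mul_le_mul_of_nonneg_left ((sumP_le M₀ M₁ Y F e T).trans har) (wt_nonneg A e)
  refine h1.trans ?_
  have h2 : ∑ e ∈ Icc 1 (RX X), wt A e ≤ (2 * Real.log X) ^ K := by
    refine (sum_wt A (RX X)).trans ?_
    rw [← hK]
    have hR : ((RX X : ℕ) : ℝ) ≤ X := by
      unfold RX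
      refine (Nat.floor_le (by positivity)).trans ?_
      calc (X : ℝ) ^ (4995 / 10000 : ℝ) ≤ (X : ℝ) ^ (1 : ℝ) := Real.rpow_le_rpow_of_exponent_le hX1 (by norm_num)
        _ = X := Real.rpow_one _
    have hlogR : Real.log (RX X) ≤ Real.log X := by
      rcases Nat.eq_zero_or_pos (RX X) with h | h
      · rw [h]; simp; linarith
      · exact Real.log_le_log (by exact_mod_cast h) hR
    apply pow_le_pow_left₀ _ (by linarith)
    have := Real.log_natCast_nonneg (RX X)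
    linarith
  have h3 : (2 * Real.log X) ^ K * 66 ≤ Real.log X ^ (K + 1) := by
    rw [mul_pow, pow_succ]
    have : 0 ≤ Real.log X ^ K := by positivity
    nlinarith
  calc (∑ e ∈ Icc 1 (RX X), wt A e) * (66 * ((X : ℝ) + (X : ℝ) ^ (9999 / 10000 : ℝ) * F)) ≤
      (2 * Real.log X) ^ K * (66 * ((X : ℝ) + (X : ℝ) ^ (9999 / 10000 : ℝ) * F)) :=
        mul_le_mul_of_nonneg_right h2 (by positivity)
    _ = ((X : ℝ) + (X : ℝ) ^ (9999 / 10000 : ℝ) * F) * ((2 * Real.log X) ^ K * 66) := by ring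
    _ ≤ _ := mul_le_mul_of_nonneg_left h3 hnn

end Pool.Agent.Q117.CR
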